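import Pool.Agent.H.MP_56c207_gt.Epg

namespace Pool.Agent.Results.MP_0958cc_gt.NotHomog

open Pool.Agent.H.MP_56c207_gt Pool.Agent.H.MP_211c6f_gt in
theorem result :
    ∃ (A : Set unitInterval) (F : Type) (_ : MetricSpace F) (t : F),
      SmoothFan F t ∧ EPG F t A ∧ ¬ EndHomog F := by
  obtain ⟨p, hp⟩ := fan_of (T := TM) (d := 0) fun n => by simp [TM]
  exact ⟨AA, Phi TM, TopologicalSpace.metrizableSpaceMetric _, _,
    smoothFan (cone TM_tree) p hp, richM.epg TM_tree, not_homog⟩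

end Pool.Agent.Results.MP_0958cc_gt.NotHomog
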